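import Pool.Agent.Lib_MP_f1a94e_ap.SieveApp
import Pool.Agent.Lib_MP_f55cd4.MertC

/-!
# Values of `x ^ 4 + n y` with `x + y = n` without small prime factors

There are `R` and `c > 0` such that for every `n ≥ 2` there are at least `c n / (log n) ^ 4` pairs of positive
`x`, `y` with `x + y = n` for which every prime factor `p` of `x ^ 4 + n y` satisfies `p ^ R ≥ n`; so
`x ^ 4 + n y` has at most `5 R` prime factors.

Proof. The polynomial `x ^ 4 - n x + n ^ 2` has no fixed prime divisor (its value is a unit modulo `p` at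
`x = 0` if `p` does not divide `n` and at each unit `x` if `p` divides `n`), so the Brun-Hooley sieve of
dimension `4` applies, uniformly in `n`.
-/

set_option autoImplicit false

namespace Pool.Agent.Results.MP_baa994_nt.RoughValues

open Finset Pool.Agent.OmAP

/-- the values modulo `p` -/
theorem cast_value {n x : ℕ} (p : ℕ) (hx : x ≤ n) :
    ((x ^ 4 + n * (n - x) : ℕ) : ZMod p) = (x : ZMod p) ^ 4 + n * (n - x) := by
  rw [Nat.cast_add, Nat.cast_mul, Nat.cast_pow, Nat.cast_sub hx]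

open Classical in
/-- at most four residue classes are forbidden -/
theorem card_om (n x0 p : ℕ) (hp : p.Prime) (h210 : ¬ p ∣ 210) :
    ((range p).filter fun t : ℕ => ((x0 + 210 * t : ℕ) : ZMod p) ^ 4 +
      n * (n - ((x0 + 210 * t : ℕ) : ZMod p)) = 0).card ≤ 4 := by
  have : Fact p.Prime := ⟨hp⟩
  obtain ⟨P, hP⟩ : ∃ P : Polynomial (ZMod p), P = Polynomial.X ^ 4 -
    Polynomial.C (n : ZMod p) * Polynomial.X + Polynomial.C ((n : ZMod p) ^ 2) := ⟨_, rfl⟩
  have hdeg : P.natDegree = 4 := by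
    rw [hP]
    compute_degree!
  have hP0 : P ≠ 0 := by
    intro h
    rw [h, Polynomial.natDegree_zero] at hdeg
    omega
  calc _ ≤ P.roots.toFinset.card := by
        refine card_le_card_of_injOn (fun t => ((x0 + 210 * t : ℕ) : ZMod p)) ?_ ?_
        · intro t ht
          have h1 := (mem_filter.1 (mem_coe.1 ht)).2
          rw [mem_coe, Multiset.mem_toFinset, Polynomial.mem_roots hP0, Polynomial.IsRoot.def, hP]
          simp only [Polynomial.eval_add, Polynomial.eval_sub, Polynomial.eval_mul,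
            Polynomial.eval_pow, Polynomial.eval_X, Polynomial.eval_C]
          linear_combination h1
        · intro t ht t' ht' h
          have h1 := mem_range.1 (mem_filter.1 (mem_coe.1 ht)).1
          have h2 := mem_range.1 (mem_filter.1 (mem_coe.1 ht')).1
          have h3 : ((210 : ℕ) : ZMod p) ≠ 0 := by
            rwa [Ne, ZMod.natCast_eq_zero_iff]
          have h4 : (t : ZMod p) = t' := by
            have h5 : ((210 : ℕ) : ZMod p) * ((t : ZMod p) - t') = 0 := by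
              have h6 : ((x0 + 210 * t : ℕ) : ZMod p) = ((x0 + 210 * t' : ℕ) : ZMod p) := h
              rw [Nat.cast_add, Nat.cast_add, Nat.cast_mul, Nat.cast_mul] at h6
              linear_combination h6
            exact sub_eq_zero.1 ((mul_eq_zero.1 h5).resolve_left h3)
          have h5 := (ZMod.natCast_eq_natCast_iff' t t' p).1 h4
          rwa [Nat.mod_eq_of_lt h1, Nat.mod_eq_of_lt h2] at h5
    _ ≤ P.roots.card := Multiset.toFinset_card_le _
    _ ≤ P.natDegree := Polynomial.card_roots' P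
    _ = 4 := hdeg

/-- the small primes do not divide the value at `210 / gcd (210, n)` -/
theorem small (n t p : ℕ) (hp : p.Prime) (h210 : p ∣ 210)
    (h : ((210 / Nat.gcd 210 n + 210 * t : ℕ) : ZMod p) ^ 4 +
      n * (n - ((210 / Nat.gcd 210 n + 210 * t : ℕ) : ZMod p)) = 0) : False := by
  have : Fact p.Prime := ⟨hp⟩
  obtain ⟨g, hg⟩ : ∃ g, g = Nat.gcd 210 n := ⟨_, rfl⟩
  obtain ⟨m, hm⟩ : ∃ m, m = 210 / g := ⟨_, rfl⟩
  have hgm : g * m = 210 := by
    rw [hm, hg]
    exact Nat.mul_div_cancel' (Nat.gcd_dvd_left _ _)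
  rw [← hg, ← hm, Nat.cast_add, Nat.cast_mul, (ZMod.natCast_eq_zero_iff 210 p).2 h210, zero_mul,
    add_zero] at h
  by_cases hn : p ∣ n
  · rw [(ZMod.natCast_eq_zero_iff n p).2 hn, zero_mul, add_zero] at h
    have h1 : p ∣ m := (ZMod.natCast_eq_zero_iff m p).1 (pow_eq_zero_iff (by norm_num) |>.1 h)
    have h2 : p ∣ g := by
      rw [hg]
      exact Nat.dvd_gcd h210 hn
    have h3 : p * p ∣ 210 := by
      rw [← hgm]
      exact Nat.mul_dvd_mul h2 h1
    have h4 : p ≤ 210 := Nat.le_of_dvd (by norm_num) h210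
    have h5 : p ≤ 14 := by
      have := Nat.le_of_dvd (by norm_num) h3
      nlinarith
    have h6 := hp.two_le
    interval_cases p <;> revert h3 <;> decide
  · have h1 : p ∣ g * m := by rw [hgm]; exact h210
    rcases hp.dvd_mul.1 h1 with h2 | h2
    · exact hn (h2.trans (by rw [hg]; exact Nat.gcd_dvd_right _ _))
    · rw [(ZMod.natCast_eq_zero_iff m p).2 h2] at h
      have h3 : (n : ZMod p) ^ 2 = 0 := by linear_combination h
      exact hn ((ZMod.natCast_eq_zero_iff n p).1 (pow_eq_zero_iff (by norm_num) |>.1 h3))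

theorem list_bound (n R : ℕ) (L : List ℕ) (h : ∀ p ∈ L, n ≤ p ^ R) : n ^ L.length ≤ L.prod ^ R := by
  induction L with
  | nil => simp
  | cons a L ih =>
    rw [List.length_cons, List.prod_cons, pow_succ, mul_comm, mul_pow]
    exact Nat.mul_le_mul (h a (by simp)) (ih fun p hp => h p (by simp [hp]))

theorem one_sub_ge {u : ℝ} (h0 : 0 ≤ u) (h1 : u ≤ 1 / 2) : Real.exp (-(u + u ^ 2)) ≤ 1 - u := by
  have h2 : Real.exp (-(u + u ^ 2)) = (Real.exp (u + u ^ 2))⁻¹ := Real.exp_neg _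
  have h3 : 1 + (u + u ^ 2) ≤ Real.exp (u + u ^ 2) := by linarith [Real.add_one_le_exp (u + u ^ 2)]
  have h4 : 0 < 1 + (u + u ^ 2) := by positivity
  have h5 : 1 ≤ (1 - u) * Real.exp (u + u ^ 2) := by
    have h6 : Real.exp (u + u ^ 2) ≥ 1 + (u + u ^ 2) + (u + u ^ 2) ^ 2 / 2 := by
      linarith [Real.quadratic_le_exp_of_nonneg (show 0 ≤ u + u ^ 2 by positivity)]
    have h7 : (1 - u) * (1 + (u + u ^ 2) + (u + u ^ 2) ^ 2 / 2) ≤ (1 - u) * Real.exp (u + u ^ 2) :=
      mul_le_mul_of_nonneg_left h6 (by linarith)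
    nlinarith [pow_nonneg h0 2, pow_nonneg h0 3, pow_nonneg h0 4, pow_nonneg h0 5,
      mul_nonneg (pow_nonneg h0 2) (sub_nonneg.2 h1), mul_nonneg (pow_nonneg h0 3) (sub_nonneg.2 h1),
      mul_nonneg (pow_nonneg h0 4) (sub_nonneg.2 h1)]
  rw [h2, inv_le_iff_one_le_mul₀ (Real.exp_pos _)]
  exact h5

/-- the product over the primes in `(8, z]` is at least `c / (log z) ^ 4` -/
theorem prod_lower : ∃ c : ℝ, 0 < c ∧ ∀ z : ℕ, 2 ≤ z →
    c / Real.log z ^ 4 ≤ ∏ p ∈ PP 4 z, (1 - (4 : ℝ) / p) := by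
  obtain ⟨C, hC⟩ := MPf55cd4.ms_sum
  refine ⟨Real.exp (-(4 * C + 32)), Real.exp_pos _, fun z hz => ?_⟩
  have hzr : (2 : ℝ) ≤ z := by exact_mod_cast hz
  have hlz : 0 < Real.log z := Real.log_pos (by linarith)
  have h1 : ∏ p ∈ PP 4 z, Real.exp (-((4 : ℝ) / p + ((4 : ℝ) / p) ^ 2)) ≤
      ∏ p ∈ PP 4 z, (1 - (4 : ℝ) / p) := by
    refine prod_le_prod (fun p _ => (Real.exp_pos _).le) fun p hp => ?_
    have hp8 : (8 : ℝ) < p := by
      have := (mem_PP.1 hp).1.1
      exact_mod_cast this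
    refine one_sub_ge (by positivity) ?_
    rw [div_le_iff₀ (by linarith)]
    linarith
  refine le_trans ?_ h1
  rw [← Real.exp_sum]
  have hM := (abs_le.1 (hC z hzr)).2
  rw [Nat.floor_natCast] at hM
  have hs1 : ∑ p ∈ PP 4 z, (1 : ℝ) / p ≤ Real.log (Real.log z) + C := by
    have : ∑ p ∈ PP 4 z, (1 : ℝ) / p ≤
        ∑ p ∈ (Finset.Icc 1 z).filter (fun p => p.Prime), (1 : ℝ) / p := by
      refine sum_le_sum_of_subset_of_nonneg ?_ fun _ _ _ => by positivity
      intro p hp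
      obtain ⟨⟨h2, h3⟩, h4⟩ := mem_PP.1 hp
      exact mem_filter.2 ⟨mem_Icc.2 ⟨h4.one_lt.le, h3⟩, h4⟩
    linarith
  have hs2 : ∑ p ∈ PP 4 z, ((1 : ℝ) / p) ^ 2 ≤ 2 := by
    have h2 : ∑ p ∈ PP 4 z, ((1 : ℝ) / p) ^ 2 ≤ ∑ p ∈ Finset.Ioc 1 z, ((1 : ℝ) / p) ^ 2 := by
      refine sum_le_sum_of_subset_of_nonneg ?_ fun _ _ _ => by positivity
      intro p hp
      obtain ⟨⟨h2, h3⟩, h4⟩ := mem_PP.1 hp
      exact mem_Ioc.2 ⟨h4.one_lt, h3⟩
    have h3 : ∀ N : ℕ, 1 ≤ N → ∑ p ∈ Finset.Ioc 1 N, ((1 : ℝ) / p) ^ 2 ≤ 2 - 1 / N := by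
      intro N hN
      induction N, hN using Nat.le_induction with
      | base => norm_num
      | succ N hN ih =>
        rw [Finset.sum_Ioc_succ_top (by omega)]
        have hN' : (1 : ℝ) ≤ N := by exact_mod_cast hN
        have h5 : ((1 : ℝ) / ((N + 1 : ℕ) : ℝ)) ^ 2 ≤ 1 / N - 1 / ((N + 1 : ℕ) : ℝ) := by
          push_cast
          rw [div_pow, one_pow, div_sub_div _ _ (by linarith) (by linarith),
            div_le_div_iff₀ (by positivity) (by positivity)]
          nlinarith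
        linarith
    have h4 := h3 z (by omega)
    have h5 : (0 : ℝ) ≤ 1 / z := by positivity
    linarith
  have h2 : ∑ p ∈ PP 4 z, -((4 : ℝ) / p + ((4 : ℝ) / p) ^ 2) =
      -(4 * ∑ p ∈ PP 4 z, (1 : ℝ) / p + 16 * ∑ p ∈ PP 4 z, ((1 : ℝ) / p) ^ 2) := by
    rw [mul_sum, mul_sum, ← sum_add_distrib, ← sum_neg_distrib]
    refine sum_congr rfl fun p _ => ?_
    ring
  have h3 : Real.exp (-(4 * C + 32)) / Real.log z ^ 4 =
      Real.exp (-(4 * (Real.log (Real.log z) + C) + 32)) := by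
    have h4 : Real.log z ^ 4 = Real.exp (4 * Real.log (Real.log z)) := by
      rw [show (4 : ℝ) * Real.log (Real.log z) = ((4 : ℕ) : ℝ) * Real.log (Real.log z) by norm_num,
        Real.exp_nat_mul, Real.exp_log hlz]
    rw [h4, ← Real.exp_sub]
    congr 1
    ring
  rw [h2, h3]
  apply Real.exp_le_exp.2
  linarith

/-- There are `R` and `c > 0` such that for every `n ≥ 2` there are at least `c n / (log n) ^ 4` pairs of positive
integers `x`, `y` with `x + y = n` (counted by `x`) for which every prime factor `p` of `x ^ 4 + n y` satisfies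
`n ≤ p ^ R`, and `x ^ 4 + n y` has at most `5 R` prime factors, counted with multiplicity. -/
theorem result : ∃ (R : ℕ) (c : ℝ), 0 < c ∧ ∀ n : ℕ, 2 ≤ n →
    c * n / Real.log n ^ 4 ≤ (({x : ℕ | ∃ y : ℕ, 1 ≤ x ∧ 1 ≤ y ∧ x + y = n ∧
      (∀ p : ℕ, p.Prime → p ∣ x ^ 4 + n * y → n ≤ p ^ R) ∧
      (x ^ 4 + n * y).primeFactorsList.length ≤ 5 * R} : Set ℕ).ncard : ℝ) := by
  classical
  obtain ⟨C, hC⟩ := sieve_count 4
  obtain ⟨c, hc, hprod⟩ := prod_lower
  obtain ⟨N0, hN0⟩ : ∃ N0, N0 = 420 * 2 ^ (C + 1) := ⟨_, rfl⟩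
  have hl2 : 0 < Real.log 2 := Real.log_pos one_lt_two
  refine ⟨C + 10, min (c / 3360) (Real.log 2 ^ 4 / N0), lt_min (by positivity) (by
    rw [hN0]; positivity), fun n hn => ?_⟩
  have hnr : (2 : ℝ) ≤ n := by exact_mod_cast hn
  have hln : Real.log 2 ≤ Real.log n := Real.log_le_log (by norm_num) hnr
  -- a good `x` belongs to the set
  have hmem : ∀ x : ℕ, 1 ≤ x → x + 1 ≤ n →
      (∀ p : ℕ, p.Prime → p ∣ x ^ 4 + n * (n - x) → n ≤ p ^ (C + 10)) →
      x ∈ ({x : ℕ | ∃ y : ℕ, 1 ≤ x ∧ 1 ≤ y ∧ x + y = n ∧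
      (∀ p : ℕ, p.Prime → p ∣ x ^ 4 + n * y → n ≤ p ^ (C + 10)) ∧
      (x ^ 4 + n * y).primeFactorsList.length ≤ 5 * (C + 10)} : Set ℕ) := by
    intro x hx1 hxn hp
    refine ⟨n - x, hx1, by omega, by omega, hp, ?_⟩
    have hV0 : x ^ 4 + n * (n - x) ≠ 0 := by
      have : 0 < x ^ 4 := Nat.pow_pos (by omega)
      omega
    have h1 := list_bound n (C + 10) (x ^ 4 + n * (n - x)).primeFactorsList
      (fun p hp' => hp p (Nat.prime_of_mem_primeFactorsList hp')
        (Nat.dvd_of_mem_primeFactorsList hp'))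
    rw [Nat.prod_primeFactorsList hV0] at h1
    have h2 : x ^ 4 + n * (n - x) ≤ n ^ 5 := by
      have h3 : x ^ 4 ≤ n ^ 4 := Nat.pow_le_pow_left (by omega) 4
      have h4 : n * (n - x) ≤ n ^ 4 := by
        calc n * (n - x) ≤ n * n := Nat.mul_le_mul_left _ (Nat.sub_le _ _)
          _ = n ^ 2 := (sq n).symm
          _ ≤ n ^ 4 := Nat.pow_le_pow_right (by omega) (by norm_num)
      calc x ^ 4 + n * (n - x) ≤ 2 * n ^ 4 := by omega
        _ ≤ n * n ^ 4 := Nat.mul_le_mul_right _ hn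
        _ = n ^ 5 := by ring
    have h3 : n ^ (x ^ 4 + n * (n - x)).primeFactorsList.length ≤ n ^ (5 * (C + 10)) := by
      rw [pow_mul]
      exact h1.trans (Nat.pow_le_pow_left h2 _)
    exact (Nat.pow_le_pow_iff_right (by omega)).1 h3
  obtain ⟨S, hS⟩ : ∃ S : Set ℕ, S = {x : ℕ | ∃ y : ℕ, 1 ≤ x ∧ 1 ≤ y ∧ x + y = n ∧
      (∀ p : ℕ, p.Prime → p ∣ x ^ 4 + n * y → n ≤ p ^ (C + 10)) ∧
      (x ^ 4 + n * y).primeFactorsList.length ≤ 5 * (C + 10)} := ⟨_, rfl⟩
  rw [← hS] at hmem ⊢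
  have hfin : S.Finite := by
    refine (Set.finite_Icc 0 n).subset ?_
    rintro x hx
    rw [hS] at hx
    obtain ⟨y, h1, h2, h3, -⟩ := hx
    exact ⟨Nat.zero_le _, by omega⟩
  by_cases hbig : n < N0
  · have h1 : 1 ∈ S := hmem 1 le_rfl (by omega) fun p hp _ => by
      calc n ≤ N0 := hbig.le
        _ = 420 * 2 ^ (C + 1) := hN0
        _ ≤ 2 ^ 9 * 2 ^ (C + 1) := Nat.mul_le_mul_right _ (by norm_num)
        _ = 2 ^ (C + 10) := by rw [← pow_add]; congr 1; omega
        _ ≤ p ^ (C + 10) := Nat.pow_le_pow_left hp.two_le _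
    have h2 : 1 ≤ S.ncard := (Set.ncard_pos hfin).2 ⟨1, h1⟩
    have h3 : (1 : ℝ) ≤ S.ncard := by exact_mod_cast h2
    refine le_trans ?_ h3
    rw [div_le_one (pow_pos (hl2.trans_le hln) 4)]
    have h4 : (n : ℝ) ≤ N0 := by exact_mod_cast hbig.le
    have h5 : (0 : ℝ) < N0 := by linarith
    calc min (c / 3360) (Real.log 2 ^ 4 / N0) * n ≤ Real.log 2 ^ 4 / N0 * N0 :=
          mul_le_mul (min_le_right _ _) h4 (by linarith) (by positivity)
      _ = Real.log 2 ^ 4 := by field_simp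
      _ ≤ Real.log n ^ 4 := pow_le_pow_left₀ hl2.le hln 4
  · push Not at hbig
    have hex : ∃ w : ℕ, n < 420 * w ^ (C + 1) :=
      ⟨n, by
        have : n ≤ n ^ (C + 1) := Nat.le_self_pow (by omega) n
        omega⟩
    obtain ⟨w, hw⟩ : ∃ w, w = Nat.find hex := ⟨_, rfl⟩
    have hw1 : n < 420 * w ^ (C + 1) := by rw [hw]; exact Nat.find_spec hex
    have hw2 : ∀ v, v < w → 420 * v ^ (C + 1) ≤ n := fun v hv => by
      rw [hw] at hv
      exact not_lt.1 (Nat.find_min hex hv)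
    have hw3 : 3 ≤ w := by
      by_contra hcon
      have h1 : w ^ (C + 1) ≤ 2 ^ (C + 1) := Nat.pow_le_pow_left (by omega) _
      have h2 : 420 * w ^ (C + 1) ≤ 420 * 2 ^ (C + 1) := Nat.mul_le_mul_left _ h1
      omega
    obtain ⟨x0, hx0⟩ : ∃ x0, x0 = 210 / Nat.gcd 210 n := ⟨_, rfl⟩
    have hx01 : 1 ≤ x0 := by
      rw [hx0]
      exact Nat.div_pos (Nat.le_of_dvd (by norm_num) (Nat.gcd_dvd_left _ _))
        (Nat.gcd_pos_of_pos_left _ (by norm_num))
    have hx02 : x0 ≤ 210 := by rw [hx0]; exact Nat.div_le_self _ _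
    have h210 : ∀ p ∈ PP 4 (w - 1), ¬ p ∣ 210 := by
      intro p hp hd
      obtain ⟨⟨h1, h2⟩, h3⟩ := mem_PP.1 hp
      have h4 : p ∣ 2 * 3 * 5 * 7 := hd
      rw [h3.dvd_mul, h3.dvd_mul, h3.dvd_mul] at h4
      rcases h4 with ((h4 | h4) | h4) | h4 <;>
        · have := Nat.le_of_dvd (by norm_num) h4
          omega
    obtain ⟨T, hT⟩ : ∃ T, T = n / 420 := ⟨_, rfl⟩
    have hT1 : 420 * T ≤ n := by rw [hT]; exact Nat.mul_div_le n 420
    have hT2 : n < 420 * (T + 1) := by rw [hT]; omega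
    have hT0 : 1 ≤ T := by
      have : 420 * 2 ^ (C + 1) ≤ n := by rw [← hN0]; exact hbig
      have h2 : 1 ≤ 2 ^ (C + 1) := Nat.one_le_two_pow
      omega
    have hzT : (w - 1) ^ C ≤ T := by
      have h1 := hw2 (w - 1) (by omega)
      have h2 : (w - 1) ^ C ≤ (w - 1) ^ (C + 1) := Nat.pow_le_pow_right (by omega) (by omega)
      omega
    have hcount := hC (w - 1) T (by omega) hzT (fun p => (range p).filter fun t : ℕ =>
      ((x0 + 210 * t : ℕ) : ZMod p) ^ 4 + n * (n - ((x0 + 210 * t : ℕ) : ZMod p)) = 0)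
      (fun p hp => ⟨card_om n x0 p (mem_PP.1 hp).2 (h210 p hp), filter_subset _ _⟩)
    -- the good `t` give elements of `S`
    have hcard : ((range T).filter fun t => ∀ p ∈ PP 4 (w - 1), t % p ∉
        (range p).filter fun t : ℕ => ((x0 + 210 * t : ℕ) : ZMod p) ^ 4 +
          n * (n - ((x0 + 210 * t : ℕ) : ZMod p)) = 0).card ≤ S.ncard := by
      rw [← Set.ncard_coe_finset]
      refine Set.ncard_le_ncard_of_injOn (fun t => x0 + 210 * t) ?_ ?_ hfin
      · intro t ht
        obtain ⟨ht, hav⟩ := mem_filter.1 (mem_coe.1 ht)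
        rw [mem_range] at ht
        have htn : x0 + 210 * t + 1 ≤ n := by omega
        refine hmem (x0 + 210 * t) (by omega) htn fun p hp hd => ?_
        have hz : ((x0 + 210 * t : ℕ) : ZMod p) ^ 4 +
            n * (n - ((x0 + 210 * t : ℕ) : ZMod p)) = 0 := by
          rw [← cast_value p (by omega), ZMod.natCast_eq_zero_iff]
          exact hd
        have hpw : w ≤ p := by
          by_contra hcon
          by_cases h2 : p ∣ 210
          · rw [hx0] at hz
            exact small n t p hp h2 hz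
          · have h8 : 2 * 4 < p := by
              by_contra h9
              have h10 := hp.two_le
              have h11 : p ≤ 8 := by omega
              interval_cases p <;> revert h2 hp <;> decide
            have hmem' : p ∈ PP 4 (w - 1) := mem_PP.2 ⟨⟨h8, by omega⟩, hp⟩
            refine hav p hmem' (mem_filter.2 ⟨mem_range.2 (Nat.mod_lt _ hp.pos), ?_⟩)
            have h3 : ((x0 + 210 * (t % p) : ℕ) : ZMod p) = ((x0 + 210 * t : ℕ) : ZMod p) := by
              rw [Nat.cast_add, Nat.cast_add, Nat.cast_mul, Nat.cast_mul, ZMod.natCast_mod]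
            rw [h3]
            exact hz
        calc n ≤ 420 * w ^ (C + 1) := hw1.le
          _ ≤ 2 ^ 9 * w ^ (C + 1) := Nat.mul_le_mul_right _ (by norm_num)
          _ ≤ p ^ 9 * p ^ (C + 1) := Nat.mul_le_mul (Nat.pow_le_pow_left hp.two_le _)
              (Nat.pow_le_pow_left hpw _)
          _ = p ^ (C + 10) := by rw [← pow_add]; congr 1; omega
      · intro t _ t' _ h
        have h' : x0 + 210 * t = x0 + 210 * t' := h
        omega
    have hcardr : (((range T).filter fun t => ∀ p ∈ PP 4 (w - 1), t % p ∉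
        (range p).filter fun t : ℕ => ((x0 + 210 * t : ℕ) : ZMod p) ^ 4 +
          n * (n - ((x0 + 210 * t : ℕ) : ZMod p)) = 0).card : ℝ) ≤ (S.ncard : ℝ) := by
      exact_mod_cast hcard
    refine le_trans ?_ (hcount.trans hcardr)
    have hp2 : ∏ p ∈ PP 4 (w - 1), (1 - (4 : ℝ) / p) ≤ ∏ p ∈ PP 4 (w - 1),
        (1 - ((((range p).filter fun t : ℕ => ((x0 + 210 * t : ℕ) : ZMod p) ^ 4 +
          n * (n - ((x0 + 210 * t : ℕ) : ZMod p)) = 0).card : ℕ) : ℝ) / p) := by
      refine prod_le_prod (fun p hp => ?_) fun p hp => ?_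
      · have hp8 : (8 : ℝ) < p := by
          have := (mem_PP.1 hp).1.1
          exact_mod_cast this
        rw [sub_nonneg, div_le_one (by linarith)]
        linarith
      · have h4 : ((((range p).filter fun t : ℕ => ((x0 + 210 * t : ℕ) : ZMod p) ^ 4 +
          n * (n - ((x0 + 210 * t : ℕ) : ZMod p)) = 0).card : ℕ) : ℝ) ≤ 4 := by
          exact_mod_cast card_om n x0 p (mem_PP.1 hp).2 (h210 p hp)
        have hp0 : (0 : ℝ) < p := by exact_mod_cast (mem_PP.1 hp).2.pos
        have := div_le_div_of_nonneg_right h4 hp0.le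
        linarith
    have hlw : 0 < Real.log ((w - 1 : ℕ) : ℝ) := Real.log_pos (by
      have : 2 ≤ w - 1 := by omega
      have : (2 : ℝ) ≤ ((w - 1 : ℕ) : ℝ) := by exact_mod_cast this
      linarith)
    have hlwn : Real.log ((w - 1 : ℕ) : ℝ) ≤ Real.log n := by
      apply Real.log_le_log
      · have : 0 < w - 1 := by omega
        exact_mod_cast this
      · have h1 := hw2 (w - 1) (by omega)
        have h2 : w - 1 ≤ (w - 1) ^ (C + 1) := Nat.le_self_pow (by omega) _
        have : w - 1 ≤ n := by omega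
        exact_mod_cast this
    have hTr : (n : ℝ) / 840 ≤ T := by
      have h1 : n ≤ 840 * T := by omega
      have h2 : (n : ℝ) ≤ 840 * T := by exact_mod_cast h1
      linarith
    calc min (c / 3360) (Real.log 2 ^ 4 / N0) * n / Real.log n ^ 4
        ≤ c / 3360 * n / Real.log n ^ 4 := by
          apply div_le_div_of_nonneg_right _ (by positivity)
          exact mul_le_mul_of_nonneg_right (min_le_left _ _) (by linarith)
      _ ≤ c / 3360 * n / Real.log ((w - 1 : ℕ) : ℝ) ^ 4 := by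
          apply div_le_div_of_nonneg_left (by positivity) (by positivity)
          exact pow_le_pow_left₀ hlw.le hlwn 4
      _ = (n : ℝ) / 840 / 4 * (c / Real.log ((w - 1 : ℕ) : ℝ) ^ 4) := by ring
      _ ≤ (T : ℝ) / 4 * ∏ p ∈ PP 4 (w - 1), (1 - (4 : ℝ) / p) := by
          refine mul_le_mul (by linarith) (hprod (w - 1) (by omega)) (by positivity) (by positivity)
      _ ≤ _ := mul_le_mul_of_nonneg_left hp2 (by positivity)

end Pool.Agent.Results.MP_baa994_nt.RoughValues
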